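import Mathlib
import Pool.Agent.KS6_89.HHH.Occur
import Pool.Agent.KS6_89.HHH.Small
import Pool.Agent.KS6_89.HHH.Even

/-!
# The rectangular component in the kernel of the Hermite-Hadamard-Howe map: all `n`

For `n ≤ 3` the Hermite-Hadamard-Howe map `h_{d,n}` never vanishes on the `S_{(d^n)} V`-isotypic
component of `S^d(S^n V)` (unless this component is zero).  For every `n ≥ 4` and all large `d`
the module `S_{(d^n)} V` occurs in `S^d(S^n V)`, and `h_{d,n}` vanishes on its isotypic component
if and only if `d` is odd.

The new point is the occurrence for all `d ≥ n ^ 4`.  It is proved by means of a cyclic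
hypergraph with `d` points and `d` blocks of size `n`, each point being in `n` blocks, which has
only one colouring with `n + 1` colours and injective on the blocks, up to permutations of the
colours, and whose colour classes have pairwise different sizes.  The symmetrization over the
points of the corresponding product of `d` brackets is evaluated at the points of a rational normal
curve given by the colours: all the nonzero terms are equal.

The definitions `Tensor`, `hhh`, `rect`, `isotypic` are those of
`Pool/Graph/R_pool_sql_team_seeded_47a924f7/T6/H18/HH/Defs.lean` (`V = ℂ^m`).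
-/

set_option autoImplicit false

namespace Pool.Agent.Results.MP_96ff56_al.AllLargeDegrees

open Finset Pool.Agent.T6.H18.HH Pool.Agent.KS6_89.HHH

/-- (1) For `n ≤ 3` and all `d ≥ 1`: if `S_{(d^n)} V` occurs in `S^d(S^n V)` then `h_{d,n}` does
not vanish on its isotypic component.
(2) For `n ≥ 4` and all `d ≥ n ^ 4` the module `S_{(d^n)} V` occurs in `S^d(S^n V)`; if moreover
`d` is odd then `h_{d,n}` vanishes on its isotypic component.
(3) For all `n` and all large even `d` the map `h_{d,n}` does not vanish on the isotypic
component.
So Q1 restricted to a fixed `n` is true if and only if `n ≤ 3`, and for each `n ≥ 4` it fails for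
all large odd `d` and for no large even `d`. Here `V = ℂ^m` with `m ≥ n`. -/
theorem result :
    (∀ n d m : ℕ, 1 ≤ n → n ≤ 3 → 1 ≤ d → n ≤ m → isotypic m d n ≠ ⊥ →
      ∃ t ∈ isotypic m d n, hhh t ≠ 0) ∧
    (∀ n d m : ℕ, 4 ≤ n → n ^ 4 ≤ d → n ≤ m → isotypic m d n ≠ ⊥ ∧
      (Odd d → ∀ t ∈ isotypic m d n, hhh t = 0)) ∧
    ∀ n : ℕ, ∃ D : ℕ, ∀ d m : ℕ, D ≤ d → n ≤ m → Even d → ∃ t ∈ isotypic m d n, hhh t ≠ 0 := by
  refine ⟨?_, ?_, large_even⟩
  · intro n d m hn1 hn3 hd hnm hne
    rcases Nat.even_or_odd d with hev | hodd
    · by_cases hnd : n ≤ d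
      · exact small_even (by omega) hnm hnd hd hev
      · -- `n = 3`, `d = 2`
        obtain ⟨k, hk⟩ := hev
        have h2 : d = 2 := by omega
        have h3 : n = 3 := by omega
        subst h2 h3
        exact absurd (isotypic_eq_bot (by norm_num) semi_three_two) hne
    · have hd0 : d ≠ 0 := by omega
      obtain h1 | h2 | h3 : n = 1 ∨ n = 2 ∨ n = 3 := by omega
      · subst h1
        exact one_case hne
      · subst h2
        exact absurd (isotypic_eq_bot hd0 (semi_two hodd)) hne
      · subst h3
        exact absurd (isotypic_eq_bot hd0 (semi_three hodd)) hne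
  · intro n d m hn hd hnm
    exact ⟨occurs hn hnm hd, fun hodd t ht => hhh_odd hodd (by omega) t ht⟩

end Pool.Agent.Results.MP_96ff56_al.AllLargeDegrees
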